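import Pool.Agent.Y113.MT.AStm

/-!
# Project MT, part 5, INT: the complexification of a fibre product of rational spaces
-/

set_option autoImplicit false

open Matrix

namespace Pool.Agent.Y431.MT

open Pool.Agent.Y113.MT

/-- multiplication by a complex number as a rational linear map -/
noncomputable def mulc (c : ℂ) : ℂ →ₗ[ℚ] ℂ := LinearMap.mulLeft ℚ c

/-- a rational functional maps the complexification of a rational space to the space -/
theorem proj {n N : ℕ} (𝔫 : Submodule ℚ (Matrix (Fin n) (Fin n) ℚ × Matrix (Fin N) (Fin N) ℚ))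
    (Z : Matrix (Fin n) (Fin n) ℂ × Matrix (Fin N) (Fin N) ℂ)
    (hZ : Z ∈ Submodule.span ℂ ((fun X : Matrix (Fin n) (Fin n) ℚ × Matrix (Fin N) (Fin N) ℚ =>
      (cq X.1, cq X.2)) '' (𝔫 : Set _))) :
    ∀ p : ℂ →ₗ[ℚ] ℚ, (Z.1.map p, Z.2.map p) ∈ 𝔫 := by
  induction hZ using Submodule.span_induction with
  | mem Z hZ =>
    obtain ⟨X, hX, rfl⟩ := hZ
    intro p
    have h1 : ∀ x : ℚ, p ((algebraMap ℚ ℂ) x) = p 1 * x := by
      intro x
      rw [Algebra.algebraMap_eq_smul_one, map_smul, smul_eq_mul, mul_comm]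
    have h2 : ((cq X.1).map p, (cq X.2).map p) = (p 1) • X := by
      apply Prod.ext
      · ext a b
        simp only [Matrix.map_apply, cq, Prod.smul_fst, Matrix.smul_apply, smul_eq_mul]
        exact h1 _
      · ext a b
        simp only [Matrix.map_apply, cq, Prod.smul_snd, Matrix.smul_apply, smul_eq_mul]
        exact h1 _
    show ((cq X.1).map p, (cq X.2).map p) ∈ 𝔫
    rw [h2]
    exact 𝔫.smul_mem _ hX
  | zero =>
    intro p
    have h2 : (((0 : Matrix (Fin n) (Fin n) ℂ × Matrix (Fin N) (Fin N) ℂ).1.map p,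
        (0 : Matrix (Fin n) (Fin n) ℂ × Matrix (Fin N) (Fin N) ℂ).2.map p) :
        Matrix (Fin n) (Fin n) ℚ × Matrix (Fin N) (Fin N) ℚ) = 0 := by
      apply Prod.ext
      · ext a b
        simp
      · ext a b
        simp
    rw [h2]
    exact 𝔫.zero_mem
  | add Z Z' _ _ ih ih' =>
    intro p
    have h2 : (((Z + Z').1.map p, (Z + Z').2.map p) :
        Matrix (Fin n) (Fin n) ℚ × Matrix (Fin N) (Fin N) ℚ) =
        (Z.1.map p, Z.2.map p) + (Z'.1.map p, Z'.2.map p) := by
      apply Prod.ext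
      · ext a b
        simp
      · ext a b
        simp
    rw [h2]
    exact 𝔫.add_mem (ih p) (ih' p)
  | smul c Z _ ih =>
    intro p
    have h2 : (((c • Z).1.map p, (c • Z).2.map p) :
        Matrix (Fin n) (Fin n) ℚ × Matrix (Fin N) (Fin N) ℚ) =
        (Z.1.map (p ∘ₗ mulc c), Z.2.map (p ∘ₗ mulc c)) := by
      apply Prod.ext
      · ext a b
        simp [mulc]
      · ext a b
        simp [mulc]
    rw [h2]
    exact ih _

theorem intt : S_INT := by
  intro k n N 𝔫 Φ Ψ h
  classical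
  let b : Module.Basis (Module.Basis.ofVectorSpaceIndex ℚ ℂ) ℚ ℂ := Module.Basis.ofVectorSpace ℚ ℂ
  let J : Finset (Module.Basis.ofVectorSpaceIndex ℚ ℂ) :=
    (Finset.univ.biUnion fun i : Fin k => Finset.univ.biUnion fun a : Fin n =>
      Finset.univ.biUnion fun a' : Fin n => (b.repr (Φ i a a')).support) ∪
    (Finset.univ.biUnion fun a : Fin N => Finset.univ.biUnion fun a' : Fin N =>
      (b.repr (Ψ a a')).support)
  have hJ1 : ∀ i a a', (b.repr (Φ i a a')).support ⊆ J := by
    intro i a a' j hj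
    apply Finset.mem_union_left
    exact Finset.mem_biUnion.2 ⟨i, Finset.mem_univ _, Finset.mem_biUnion.2 ⟨a, Finset.mem_univ _,
      Finset.mem_biUnion.2 ⟨a', Finset.mem_univ _, hj⟩⟩⟩
  have hJ2 : ∀ a a', (b.repr (Ψ a a')).support ⊆ J := by
    intro a a' j hj
    apply Finset.mem_union_right
    exact Finset.mem_biUnion.2 ⟨a, Finset.mem_univ _, Finset.mem_biUnion.2 ⟨a', Finset.mem_univ _,
      hj⟩⟩
  have hsum : ∀ z : ℂ, (b.repr z).support ⊆ J →
      z = ∑ j ∈ J, b j * (algebraMap ℚ ℂ) (b.coord j z) := by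
    intro z hz
    conv_lhs => rw [← b.linearCombination_repr z, Finsupp.linearCombination_apply,
      Finsupp.sum_of_support_subset _ hz _ (fun _ _ => by simp)]
    refine Finset.sum_congr rfl fun j _ => ?_
    rw [Algebra.smul_def, mul_comm]
    rfl
  have hΦ : (Φ, Ψ) = ∑ j ∈ J, b j •
      (((fun i => cq ((Φ i).map (b.coord j))), cq (Ψ.map (b.coord j))) :
        (Fin k → Matrix (Fin n) (Fin n) ℂ) × Matrix (Fin N) (Fin N) ℂ) := by
    apply Prod.ext
    · funext i
      ext a a'
      rw [Prod.fst_sum, Finset.sum_apply, Matrix.sum_apply]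
      exact hsum _ (hJ1 i a a')
    · ext a a'
      rw [Prod.snd_sum, Matrix.sum_apply]
      exact hsum _ (hJ2 a a')
  rw [hΦ]
  refine Submodule.sum_mem _ fun j _ => Submodule.smul_mem _ _ (Submodule.subset_span ?_)
  refine ⟨(fun i => (Φ i).map (b.coord j), Ψ.map (b.coord j)), fun i => ?_, rfl⟩
  exact proj (𝔫 i) (Φ i, Ψ) (h i) (b.coord j)

end Pool.Agent.Y431.MT
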